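import Mathlib
import Pool.Agent.Helper40.Nil.Stmts

namespace Pool.Agent.Helper40.Nil

open Filter Topology Polynomial
open scoped ComplexConjugate InnerProductSpace FourierTransform ArithmeticFunction.Moebius

universe u v

/-- the conclusion of `ST_WFIN` for all positive definite functions -/
theorem app_pd (h1 : ST_WFIN.{v}) {V : Type v} [Group V] (hV : Group.IsNilpotent V) {φ : V → ℂ}
    (hφ : IsPD φ) (u : ℤ → V) (hu : IsPoly u) (ν : ℕ → ℂ) (hν1 : ∀ n, ‖ν n‖ ≤ 1)
    (hν : Wiener.OrthPoly ν) :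
    Tendsto (fun N : ℕ => (∑ n ∈ Finset.range N, ν n * φ (u n)) / (N : ℂ)) atTop (𝓝 0) := by
  obtain ⟨t, ht, hφ1⟩ : ∃ t : ℝ, 0 ≤ t ∧ φ 1 = t := by
    have := hφ {1} (fun _ => 1)
    simp only [Finset.sum_singleton, map_one, one_mul, inv_one] at this
    exact ⟨(φ 1).re, this.1, Complex.ext rfl (by simpa using this.2)⟩
  have hone : (fun _ : V => (1 : ℂ)) ∈ KK V := by
    refine ⟨?_, rfl⟩
    intro s c
    have : ∑ x ∈ s, ∑ y ∈ s, conj (c x) * c y * (1:ℂ) =
        ((Complex.normSq (∑ x ∈ s, c x) : ℝ) : ℂ) := by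
      rw [Complex.normSq_eq_conj_mul_self, map_sum, Finset.sum_mul_sum]
      simp
    rw [this]
    exact ⟨by rw [Complex.ofReal_re]; exact Complex.normSq_nonneg _, Complex.ofReal_im _⟩
  have hφ' : (fun x : V => (((t + 1)⁻¹ : ℝ) : ℂ) * (φ x + 1)) ∈ KK V := by
    refine ⟨?_, ?_⟩
    · intro s c
      have e1 : ∑ x ∈ s, ∑ y ∈ s, conj (c x) * c y * ((((t + 1)⁻¹ : ℝ) : ℂ) * (φ (x⁻¹ * y) + 1)) =
          (((t + 1)⁻¹ : ℝ) : ℂ) * (∑ x ∈ s, ∑ y ∈ s, conj (c x) * c y * φ (x⁻¹ * y) +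
            ∑ x ∈ s, ∑ y ∈ s, conj (c x) * c y * 1) := by
        rw [← Finset.sum_add_distrib, Finset.mul_sum]
        refine Finset.sum_congr rfl fun x _ => ?_
        rw [← Finset.sum_add_distrib, Finset.mul_sum]
        refine Finset.sum_congr rfl fun y _ => ?_
        ring
      rw [e1]
      obtain ⟨a1, a2⟩ := hφ s c
      obtain ⟨b1, b2⟩ := hone.1 s c
      rw [Complex.re_ofReal_mul, Complex.im_ofReal_mul, Complex.add_re, Complex.add_im, a2, b2]
      exact ⟨mul_nonneg (by positivity) (add_nonneg a1 b1), by simp⟩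
    · change (((t + 1)⁻¹ : ℝ) : ℂ) * (φ 1 + 1) = 1
      rw [hφ1]
      have : (t : ℂ) + 1 ≠ 0 := by
        have h2 : t + 1 ≠ 0 := by positivity
        exact_mod_cast h2
      push_cast
      field_simp
  have c1 := h1 V hV _ hφ' u hu ν hν1 hν
  have c2 := h1 V hV _ hone u hu ν hν1 hν
  have c3 := (c1.const_mul (((t + 1 : ℝ)) : ℂ)).sub c2
  rw [mul_zero, sub_zero] at c3
  refine c3.congr fun N => ?_
  have : (t : ℂ) + 1 ≠ 0 := by
    have h2 : t + 1 ≠ 0 := by positivity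
    exact_mod_cast h2
  have e2 : ∑ n ∈ Finset.range N, ν n * ((((t + 1)⁻¹ : ℝ) : ℂ) * (φ (u n) + 1)) =
      (((t + 1)⁻¹ : ℝ) : ℂ) * (∑ n ∈ Finset.range N, ν n * φ (u n) +
        ∑ n ∈ Finset.range N, ν n * 1) := by
    rw [← Finset.sum_add_distrib, Finset.mul_sum]
    refine Finset.sum_congr rfl fun n _ => ?_
    ring
  rw [e2]
  push_cast
  field_simp
  ring

/-- iterates of a positive functional -/
theorem app_iter {A : Type u} [CStarAlgebra A] (α : A →⋆ₐ[ℂ] A) (r : ℕ) (x y : A) :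
    α^[r] (star x * y) = star (α^[r] x) * α^[r] y := by
  induction r with
  | zero => rfl
  | succ r ih =>
    rw [Function.iterate_succ', Function.comp_apply, Function.comp_apply, Function.comp_apply, ih,
      map_mul, map_star]

/-- coefficients are positive definite -/
theorem app_coef {A : Type u} [CStarAlgebra A] {W : Type v} [Group W] (U : W →* unitary A)
    (σ : A →ₗ[ℂ] ℂ) (hσ : ∀ a : A, ∃ r : ℝ, 0 ≤ r ∧ σ (star a * a) = r) (b : A) :
    IsPD (fun x : W => σ (star b * (U x : A) * b)) := by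
  intro s c
  have e1 : ∑ x ∈ s, ∑ y ∈ s, conj (c x) * c y * σ (star b * (U (x⁻¹ * y) : A) * b) =
      σ (star (∑ x ∈ s, c x • ((U x : A) * b)) * (∑ y ∈ s, c y • ((U y : A) * b))) := by
    rw [star_sum, Finset.sum_mul_sum, map_sum]
    refine Finset.sum_congr rfl fun x _ => ?_
    rw [map_sum]
    refine Finset.sum_congr rfl fun y _ => ?_
    rw [star_smul, smul_mul_smul_comm, map_smul, smul_eq_mul]
    congr 2
    rw [star_mul, map_mul, map_inv, ← Unitary.star_eq_inv, Submonoid.coe_mul, Unitary.coe_star]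
    simp only [mul_assoc]
  rw [e1]
  obtain ⟨r, hr, h⟩ := hσ (∑ x ∈ s, c x • ((U x : A) * b))
  rw [h]
  exact ⟨by rwa [Complex.ofReal_re], Complex.ofReal_im r⟩

theorem app_exp {A : Type u} [CStarAlgebra A] (T y : A) (c : ℂ) :
    star (y + c • (1 : A)) * T * (y + c • (1 : A)) =
      star y * T * y + c • (star y * T) + conj c • (T * y) + (conj c * c) • T := by
  rw [star_add, star_smul, star_one, RCLike.star_def]
  simp only [add_mul, mul_add, smul_mul_assoc, one_mul, mul_one, mul_smul_comm, smul_add, smul_smul]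
  rw [mul_comm c (conj c)]
  abel

/-- polarization -/
theorem app_polar {A : Type u} [CStarAlgebra A] (σ : A →ₗ[ℂ] ℂ) (T y : A) :
    σ (T * y) = (1 / 4 : ℂ) * (σ (star (y + (1 : ℂ) • (1 : A)) * T * (y + (1 : ℂ) • (1 : A)))
      + Complex.I * σ (star (y + Complex.I • (1 : A)) * T * (y + Complex.I • (1 : A)))
      - σ (star (y + (-1 : ℂ) • (1 : A)) * T * (y + (-1 : ℂ) • (1 : A)))
      - Complex.I * σ (star (y + (-Complex.I) • (1 : A)) * T * (y + (-Complex.I) • (1 : A)))) := by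
  simp only [app_exp, map_add, map_smul, smul_eq_mul, map_one, map_neg, Complex.conj_I]
  have := Complex.I_mul_I
  linear_combination (-(1 / 2 : ℂ) * σ (star y * T) + (1 / 2 : ℂ) * σ (T * y)) * this

theorem app_phase {m r : ℕ} (hm : 1 ≤ m) (hr : r < m) {z : ℂ} (hz : ‖z‖ = 1) :
    Wiener.OrthPoly (fun q => (μ (m * q + r) : ℂ) * z ^ (m * q + r)) := by
  obtain ⟨θ, hθ⟩ := Wiener.exists_phase z hz
  have h1 := (Wiener.moebius_ap m hm r hr).mul_phase (C (θ * m) * X + C (θ * r))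
  refine cast ?_ h1
  congr 1
  funext q
  congr 1
  rw [hθ, Wiener.phase_pow]
  congr 2
  simp only [eval_add, eval_mul, eval_C, eval_X]
  push_cast
  ring

theorem app_zpow {𝒢 : Type v} [Group 𝒢] (G : Subgroup 𝒢) (h : 𝒢)
    (hG : ∀ g, g ∈ G ↔ h * g * h⁻¹ ∈ G) (n : ℤ) (g : 𝒢) (hg : g ∈ G) :
    h ^ n * g * (h ^ n)⁻¹ ∈ G := by
  have key : ∀ n : ℕ, ∀ g ∈ G, h ^ n * g * (h ^ n)⁻¹ ∈ G := by
    intro n
    induction n with
    | zero => intro g hg; simpa using hg
    | succ n ih =>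
      intro g hg
      have h1 := (hG _).1 (ih g hg)
      have : h ^ (n + 1) * g * (h ^ (n + 1))⁻¹ = h * (h ^ n * g * (h ^ n)⁻¹) * h⁻¹ := by
        rw [pow_succ']
        group
      rwa [this]
  have key2 : ∀ n : ℕ, ∀ g ∈ G, (h ^ n)⁻¹ * g * h ^ n ∈ G := by
    intro n
    induction n with
    | zero => intro g hg; simpa using hg
    | succ n ih =>
      intro g hg
      have h1 : h⁻¹ * g * h ∈ G := by
        rw [hG]
        simpa [mul_assoc] using hg
      have h2 := ih _ h1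
      have : (h ^ (n + 1))⁻¹ * g * h ^ (n + 1) = (h ^ n)⁻¹ * (h⁻¹ * g * h) * h ^ n := by
        rw [pow_succ']
        group
      rwa [this]
  obtain ⟨k, rfl | rfl⟩ := n.eq_nat_or_neg
  · simpa using key k g hg
  · simpa using key2 k g hg

theorem app_alpha {A : Type u} [CStarAlgebra A] {𝒢 : Type v} [Group 𝒢] (G : Subgroup 𝒢) (h : 𝒢)
    (hG : ∀ g, g ∈ G ↔ h * g * h⁻¹ ∈ G) (U : G →* unitary A) (α : A →⋆ₐ[ℂ] A)
    (hα : ∀ g : G, α (U g : A) = (U ⟨h * g * h⁻¹, (hG g).1 g.2⟩ : A)) (n : ℕ) (g : G) :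
    α^[n] (U g : A) =
      (U ⟨h ^ (n : ℤ) * g * (h ^ (n : ℤ))⁻¹, app_zpow G h hG n g g.2⟩ : A) := by
  induction n with
  | zero =>
    simp only [Function.iterate_zero, id]
    congr 2
    ext
    simp
  | succ n ih =>
    rw [Function.iterate_succ', Function.comp_apply, ih, hα]
    congr 2
    ext
    push_cast
    rw [zpow_add_one]
    group

theorem st_APP (h1 : ST_LCS.{v}) (h2 : ST_POLA.{v, v}) (h3 : ST_WFIN.{v}) : ST_APP.{u, v} := by
  intro A _ 𝒢 _ G h hG U α hα g m hm hnil z hz ρ hρ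
  have hρb : ∀ x, ‖ρ x‖ ≤ ‖x‖ := fun x => by
    have := ρ.le_opNorm x
    rwa [hρ.2, one_mul] at this
  set a : 𝒢 := h ^ m with ha
  set b : 𝒢 := (g : 𝒢) * h ^ m * (g : 𝒢)⁻¹ with hb
  set H : Subgroup 𝒢 := Subgroup.closure {a, b} with hH
  have haH : a ∈ H := Subgroup.subset_closure (by simp)
  have hbH : b ∈ H := Subgroup.subset_closure (by simp)
  have huH : ∀ i : ℤ, a ^ i * b ^ (-i) ∈ H := fun i =>
    H.mul_mem (H.zpow_mem haH i) (H.zpow_mem hbH _)
  have hbi : ∀ i : ℤ, b ^ i = (g : 𝒢) * a ^ i * (g : 𝒢)⁻¹ := by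
    intro i
    rw [hb, conj_zpow]
  have hueq : ∀ i : ℤ, a ^ i * b ^ (-i) = a ^ i * g * (a ^ i)⁻¹ * (g : 𝒢)⁻¹ := by
    intro i
    rw [hbi, zpow_neg]
    simp only [mul_assoc]
  have haG : ∀ i : ℤ, a ^ i * g * (a ^ i)⁻¹ ∈ G := by
    intro i
    have := app_zpow G h hG ((m : ℤ) * i) g g.2
    rw [zpow_mul, zpow_natCast] at this
    exact this
  have huG : ∀ i : ℤ, a ^ i * b ^ (-i) ∈ G := fun i => by
    rw [hueq]
    exact G.mul_mem (haG i) (G.inv_mem g.2)
  let W : Subgroup 𝒢 := H ⊓ G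
  let uW : ℤ → W := fun i => ⟨a ^ i * b ^ (-i), huH i, huG i⟩
  let ι : W →* H := Subgroup.inclusion inf_le_left
  have hι : Function.Injective ι := Subgroup.inclusion_injective _
  have hWnil : Group.IsNilpotent W := by
    have := hnil
    refine Subgroup.isNilpotent_of_ker_le_center ι ?_
    rw [(MonoidHom.ker_eq_bot_iff ι).2 hι]
    exact bot_le
  have hpoly : IsPoly uW := by
    refine h2.2.1 ℤ H W ι uW hι ?_
    have := h1 H hnil ⟨a, haH⟩ ⟨b, hbH⟩
    refine cast ?_ this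
    congr 1
  let UW : W →* unitary A := U.comp (Subgroup.inclusion inf_le_right)
  -- residue classes
  apply Wiener.residue_split _ 1 _ m hm
  · intro r hr
    let σ : A →ₗ[ℂ] ℂ := (ρ : A →ₗ[ℂ] ℂ) ∘ₗ Wiener.iterL α r
    have hσd : ∀ x, σ x = ρ (α^[r] x) := fun x => rfl
    have hσ : ∀ a : A, ∃ r : ℝ, 0 ≤ r ∧ σ (star a * a) = r := by
      intro x
      rw [hσd, app_iter]
      exact hρ.1 _
    have hpd := fun b : A => app_pd h3 hWnil (app_coef UW σ hσ b) uW hpoly
      (fun q => (μ (m * q + r) : ℂ) * z ^ (m * q + r))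
      (fun q => by
        rw [norm_mul, norm_pow, hz, one_pow, mul_one]
        exact Wiener.norm_moebius _) (app_phase hm hr hz)
    have e1 := (((hpd ((U g : A) + (1 : ℂ) • (1 : A))).add
      ((hpd ((U g : A) + Complex.I • (1 : A))).const_mul
      Complex.I)).sub (hpd ((U g : A) + (-1 : ℂ) • (1 : A)))).sub
      ((hpd ((U g : A) + (-Complex.I) • (1 : A))).const_mul Complex.I)
    have e2 := e1.const_mul (1 / 4 : ℂ)
    simp only [mul_zero, add_zero, sub_zero] at e2
    refine e2.congr fun M => ?_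
    have e3 : ∀ q : ℕ, ρ (α^[m * q + r] (U g : A)) = σ ((UW (uW q) : A) * (U g : A)) := by
      intro q
      rw [hσd, add_comm (m * q) r, Function.iterate_add_apply,
        app_alpha G h hG U α hα (m * q) g]
      congr 2
      rw [← Submonoid.coe_mul]
      congr 1
      change _ = U (Subgroup.inclusion inf_le_right (uW q)) * U g
      rw [← map_mul]
      congr 1
      ext
      change h ^ ((m * q : ℕ) : ℤ) * (g : 𝒢) * (h ^ ((m * q : ℕ) : ℤ))⁻¹ =
        a ^ (q : ℤ) * b ^ (-(q : ℤ)) * (g : 𝒢)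
      rw [hueq]
      push_cast
      rw [zpow_mul, zpow_natCast h m]
      simp only [ha, mul_assoc, inv_mul_cancel, mul_one]
    simp only [e3]
    simp only [app_polar σ _ (U g : A)]
    simp only [← mul_div_assoc, ← add_div, ← sub_div]
    congr 1
    simp only [Finset.mul_sum, ← Finset.sum_add_distrib, ← Finset.sum_sub_distrib]
    refine Finset.sum_congr rfl fun q _ => ?_
    ring
  · intro n
    rw [norm_mul, norm_mul, norm_pow, hz, one_pow, mul_one]
    have q1 := Wiener.norm_moebius n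
    have q2 := (hρb (α^[n] (U g : A))).trans (Wiener.iterate_norm_le α n _)
    have q3 : ‖(U g : A)‖ ≤ 1 := by
      rcases subsingleton_or_nontrivial A with hA | hA
      · rw [Subsingleton.elim (U g : A) 0, norm_zero]
        exact zero_le_one
      · exact (CStarRing.norm_of_mem_unitary (U g).2).le
    have q4 := mul_le_mul q1 (q2.trans q3) (norm_nonneg _) zero_le_one
    rwa [one_mul] at q4

end Pool.Agent.Helper40.Nil
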